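import Pool.Agent.H308R2.ZS.Stubs

/-!
# The generators of the dimension drop algebras are elements of them
-/

set_option autoImplicit false

open scoped ComplexConjugate Kronecker Matrix.Norms.L2Operator

namespace Pool.Agent.H308R2.ZS.T_PHM

open Pool.Agent.H923R2.FP Pool.Agent.H923R2.FZ Pool.Agent.H308R2.ZS

lemma flp_last (n : ℕ) (a : Fin (n + 1)) : flp n (a, Fin.last (n + 1)) = (a, Fin.last (n + 1)) := by
  unfold flp
  exact Fin.lastCases_last

lemma flp_cast (n : ℕ) (a k : Fin (n + 1)) : flp n (a, k.castSucc) = (k, a.castSucc) := by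
  unfold flp
  exact Fin.lastCases_castSucc k

lemma lft_apply (n : ℕ) (x : Matrix (Fin (n + 1)) (Fin (n + 1)) ℂ) (p q : Ix n) :
    lft n x p q = x p.1 q.1 * (1 : Matrix (Fin (n + 2)) (Fin (n + 2)) ℂ) p.2 q.2 := rfl

lemma rgt_apply (n : ℕ) (y : Matrix (Fin (n + 2)) (Fin (n + 2)) ℂ) (p q : Ix n) :
    rgt n y p q = (1 : Matrix (Fin (n + 1)) (Fin (n + 1)) ℂ) p.1 q.1 * y p.2 q.2 := rfl

lemma D0_one (n : ℕ) (i j : Fin (n + 1)) : D0 n i j 1 = lft n (Matrix.single i j 1) := by
  ext p q
  rw [lft_apply]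
  simp only [D0, Matrix.of_apply, Matrix.single_apply, Matrix.one_apply, Complex.ofReal_one,
    ite_self]
  have e1 : (i = p.1) ↔ (p.1 = i) := eq_comm
  have e2 : (j = q.1) ↔ (q.1 = j) := eq_comm
  simp only [e1, e2]
  by_cases h1 : p.1 = i <;> by_cases h2 : q.1 = j <;> by_cases h3 : p.2 = q.2 <;>
    simp [h1, h2, h3]

lemma V0_zero (n : ℕ) : V0 n 0 = lft n 0 := by
  ext p q
  rw [lft_apply]
  simp [V0]

lemma D0_flp (n : ℕ) (i j : Fin (n + 1)) (p q : Ix n) :
    D0 n i j 0 (flp n p) (flp n q) = rgt n (Matrix.single i.castSucc j.castSucc 1) p q := by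
  rw [rgt_apply]
  obtain ⟨p1, p2⟩ := p
  obtain ⟨q1, q2⟩ := q
  induction p2 using Fin.lastCases with
  | last =>
    rw [flp_last]
    have h : ¬ (i.castSucc = Fin.last (n + 1)) := (Fin.castSucc_lt_last i).ne
    simp [D0, Matrix.single_apply, h]
  | cast k =>
    rw [flp_cast]
    induction q2 using Fin.lastCases with
    | last =>
      rw [flp_last]
      have h : ¬ (j.castSucc = Fin.last (n + 1)) := (Fin.castSucc_lt_last j).ne
      have h' : ¬ (p1.castSucc = Fin.last (n + 1)) := (Fin.castSucc_lt_last p1).ne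
      simp [D0, Matrix.single_apply, h, h']
    | cast l =>
      rw [flp_cast]
      have h' : ¬ (p1.castSucc = Fin.last (n + 1)) := (Fin.castSucc_lt_last p1).ne
      simp only [D0, Matrix.of_apply, Matrix.single_apply, Matrix.one_apply, if_neg h',
        Fin.castSucc_inj]
      have e1 : (i = k) ↔ (k = i) := eq_comm
      have e2 : (j = l) ↔ (l = j) := eq_comm
      simp only [e1, e2]
      by_cases h1 : k = i <;> by_cases h2 : l = j <;> by_cases h3 : p1 = q1 <;>
        simp [h1, h2, h3]

lemma V0_flp (n : ℕ) (p q : Ix n) :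
    V0 n 1 (flp n p) (flp n q) =
      rgt n (Matrix.single (Fin.castSucc 0) (Fin.last (n + 1)) 1) p q := by
  rw [rgt_apply]
  obtain ⟨p1, p2⟩ := p
  obtain ⟨q1, q2⟩ := q
  induction q2 using Fin.lastCases with
  | last =>
    rw [flp_last]
    induction p2 using Fin.lastCases with
    | last =>
      rw [flp_last]
      have h : ¬ (Fin.last (n + 1) = q1.castSucc) := (Fin.castSucc_lt_last q1).ne'
      have h' : ¬ ((0 : Fin (n + 1)).castSucc = Fin.last (n + 1)) := (Fin.castSucc_lt_last _).ne
      simp only [V0, Matrix.of_apply, Matrix.single_apply]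
      rw [if_neg (by rintro ⟨-, -, h3⟩; exact h h3), if_neg (by rintro ⟨h3, -⟩; exact h' h3),
        mul_zero]
    | cast k =>
      rw [flp_cast]
      simp only [V0, Matrix.of_apply, Matrix.single_apply, Matrix.one_apply, Fin.castSucc_inj,
        Complex.ofReal_one]
      have e1 : (0 = k) ↔ (k = 0) := eq_comm
      simp only [e1]
      by_cases h1 : k = 0 <;> by_cases h3 : p1 = q1 <;>
        simp [h1, h3]
  | cast l =>
    rw [flp_cast]
    have h : ¬ (q1.castSucc = Fin.last (n + 1)) := (Fin.castSucc_lt_last q1).ne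
    have h' : ¬ (Fin.last (n + 1) = l.castSucc) := (Fin.castSucc_lt_last l).ne'
    simp only [V0, Matrix.of_apply, Matrix.single_apply]
    rw [if_neg (by rintro ⟨-, h3, -⟩; exact h h3), if_neg (by rintro ⟨-, h3⟩; exact h' h3),
      mul_zero]

lemma cont_D0 (n : ℕ) (i j : Fin (n + 1)) : Continuous (D0 n i j) := by
  apply continuous_matrix
  intro p q
  simp only [D0, Matrix.of_apply]
  split_ifs
  · exact Complex.continuous_ofReal
  · exact continuous_const
  · exact continuous_const

lemma cont_V0 (n : ℕ) : Continuous (V0 n) := by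
  apply continuous_matrix
  intro p q
  simp only [V0, Matrix.of_apply]
  split_ifs
  · exact Complex.continuous_ofReal
  · exact continuous_const

theorem t_PHM (hWU : S_WU) : S_PHM := by
  intro n
  obtain ⟨-, hPs, -, hPP, hWc, hW0, hW1, -⟩ := hWU n
  have hc1 : Continuous fun t : unitInterval => WW n (t : ℝ) := hWc.comp continuous_subtype_val
  have hc2 : Continuous fun t : unitInterval => star (WW n (t : ℝ)) := hc1.star
  have hphi : ∀ i j, Continuous fun t : unitInterval => phf n i j (t : ℝ) := by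
    intro i j
    have h1 : Continuous fun t : unitInterval => D0 n i j (1 - (t : ℝ)) :=
      (cont_D0 n i j).comp (continuous_const.sub continuous_subtype_val)
    exact (hc1.mul h1).mul hc2
  have hkhi : ∀ i, Continuous fun t : unitInterval => khf n i (t : ℝ) := by
    intro i
    have h1 : Continuous fun t : unitInterval => D0 n i i (Real.sqrt (1 - (t : ℝ))) :=
      (cont_D0 n i i).comp (Real.continuous_sqrt.comp
        (continuous_const.sub continuous_subtype_val))
    exact (hc1.mul h1).mul hc2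
  have hvhi : Continuous fun t : unitInterval => vhf n (t : ℝ) := by
    have h1 : Continuous fun t : unitInterval => V0 n (Real.sqrt (t : ℝ)) :=
      (cont_V0 n).comp (Real.continuous_sqrt.comp continuous_subtype_val)
    exact (hc1.mul h1).mul hc2
  have e0 : ((0 : unitInterval) : ℝ) = 0 := rfl
  have e1 : ((1 : unitInterval) : ℝ) = 1 := rfl
  refine ⟨fun i j => ⟨⟨fun t => phf n i j (t : ℝ), hphi i j⟩,
      ⟨Matrix.single i j 1, ?_⟩, ⟨Matrix.single i.castSucc j.castSucc 1, ?_⟩⟩,
    fun i => ⟨⟨fun t => khf n i (t : ℝ), hkhi i⟩,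
      ⟨Matrix.single i i 1, ?_⟩, ⟨Matrix.single i.castSucc i.castSucc 1, ?_⟩⟩,
    ⟨⟨fun t => vhf n (t : ℝ), hvhi⟩,
      ⟨0, ?_⟩, ⟨Matrix.single (Fin.castSucc 0) (Fin.last (n + 1)) 1, ?_⟩⟩, ?_⟩
  · show phf n i j ((0 : unitInterval) : ℝ) = _
    rw [e0]
    unfold phf
    rw [hW0, star_one, one_mul, mul_one, sub_zero, D0_one]
  · show phf n i j ((1 : unitInterval) : ℝ) = _
    rw [e1]
    unfold phf
    rw [hW1, hPs, sub_self]
    ext p q
    rw [hPP, D0_flp]
  · show khf n i ((0 : unitInterval) : ℝ) = _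
    rw [e0]
    unfold khf
    rw [hW0, star_one, one_mul, mul_one, sub_zero, Real.sqrt_one, D0_one]
  · show khf n i ((1 : unitInterval) : ℝ) = _
    rw [e1]
    unfold khf
    rw [hW1, hPs, sub_self, Real.sqrt_zero]
    ext p q
    rw [hPP, D0_flp]
  · show vhf n ((0 : unitInterval) : ℝ) = _
    rw [e0]
    unfold vhf
    rw [hW0, star_one, one_mul, mul_one, Real.sqrt_zero, V0_zero]
  · show vhf n ((1 : unitInterval) : ℝ) = _
    rw [e1]
    unfold vhf
    rw [hW1, hPs, Real.sqrt_one]
    ext p q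
    rw [hPP, V0_flp]
  · exact ⟨fun i j t => rfl, fun i t => rfl, fun t => rfl⟩

end Pool.Agent.H308R2.ZS.T_PHM
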